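import Pool.Agent.H12.KSJ.Targets
import Pool.Agent.H14.KEW.Epi

/-! Row NSM: symbols with a small entry are germs of the kernel of the restriction map. -/

open CategoryTheory TopologicalSpace Opposite AlgebraicGeometry Limits
open Pool.Agent.H62.MK Pool.Agent.H84.KEW Pool.Agent.H19.KN
open Pool.Agent.H17.KW (kap Pts entry column dFam D dD Gersten topSh KSh redSh thick thickι Fsh AbSh
  cycK KPre)
open Pool.Agent.H12.KG (Sp GenSp kA stA rho projStr)

universe u

namespace Pool.Agent.H14.KSJ

open Pool.Agent.H12.KSJ Pool.Agent.H14.KM Pool.Agent.H14.KEW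

section

variable {A : Type u} [CommRing A] [IsLocalRing A] {X : Scheme.{u}}
  (f : X ⟶ Spec (CommRingCat.of A))

/-- The global section of `X` given by an element of `A`. -/
noncomputable def glob (V : X.Opens) : A →+* Γ(X, V) :=
  ((Scheme.ΓSpecIso (CommRingCat.of A)).inv ≫ f.appTop ≫
    X.presheaf.map (homOfLE (le_top : V ≤ ⊤)).op).hom

omit [IsLocalRing A] in
theorem germ_glob (V : X.Opens) (y : X) (hy : y ∈ V) (a : A) :
    X.presheaf.germ V y hy (glob f V a) = stA f y a := by
  have h := X.presheaf.germ_res (homOfLE (le_top : V ≤ ⊤)) y hy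
  have h1 := ConcreteCategory.congr_hom h
    (f.appTop ((Scheme.ΓSpecIso (CommRingCat.of A)).inv a))
  exact h1

omit [IsLocalRing A] in
theorem res_glob {V W : X.Opens} (h : W ≤ V) (a : A) :
    X.presheaf.map (homOfLE h).op (glob f V a) = glob f W a := by
  have h1 : X.presheaf.map (homOfLE (le_top : V ≤ ⊤)).op ≫ X.presheaf.map (homOfLE h).op
      = X.presheaf.map (homOfLE (le_top : W ≤ ⊤)).op := by
    rw [← X.presheaf.map_comp]
    rfl
  exact ConcreteCategory.congr_hom h1 (f.appTop ((Scheme.ΓSpecIso (CommRingCat.of A)).inv a))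

/-- Elements of the power of the maximal ideal vanish on the thickening. -/
theorem app_glob (n : ℕ) (V : X.Opens) (a : A) (ha : a ∈ IsLocalRing.maximalIdeal A ^ n) :
    (thickι f n).app V (glob f V a) = 0 := by
  have h1 : thickι f n ≫ f = pullback.snd _ _ ≫
      Spec.map (CommRingCat.ofHom (Ideal.Quotient.mk (IsLocalRing.maximalIdeal A ^ n))) :=
    pullback.condition
  have h2 := congrArg Scheme.Hom.appTop h1
  rw [Scheme.Hom.comp_appTop, Scheme.Hom.comp_appTop] at h2
  have h3 : (Scheme.ΓSpecIso (CommRingCat.of A)).inv ≫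
      (Spec.map (CommRingCat.ofHom (Ideal.Quotient.mk (IsLocalRing.maximalIdeal A ^ n)))).appTop
      = CommRingCat.ofHom (Ideal.Quotient.mk (IsLocalRing.maximalIdeal A ^ n)) ≫
        (Scheme.ΓSpecIso _).inv := (Scheme.ΓSpecIso_inv_naturality _).symm
  have h4 : (thickι f n).appTop (f.appTop ((Scheme.ΓSpecIso (CommRingCat.of A)).inv a)) = 0 := by
    have h5 := ConcreteCategory.congr_hom h2 ((Scheme.ΓSpecIso (CommRingCat.of A)).inv a)
    refine h5.trans ?_
    have h6 := ConcreteCategory.congr_hom h3 a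
    have h7 : (Scheme.ΓSpecIso (CommRingCat.of (A ⧸ IsLocalRing.maximalIdeal A ^ n))).inv
        (Ideal.Quotient.mk (IsLocalRing.maximalIdeal A ^ n) a) = 0 := by
      rw [Ideal.Quotient.eq_zero_iff_mem.2 ha, map_zero]
    refine (congrArg (pullback.snd f _).appTop (h6.trans h7)).trans (map_zero _)
  have h8 := ConcreteCategory.congr_hom
    (Scheme.Hom.naturality (thickι f n) (homOfLE (le_top : V ≤ ⊤)).op)
    (f.appTop ((Scheme.ΓSpecIso (CommRingCat.of A)).inv a))
  refine h8.trans ?_
  have h9 : ∀ (g : Γ(thick f n, (thickι f n) ⁻¹ᵁ ⊤) ⟶ Γ(thick f n, (thickι f n) ⁻¹ᵁ V)),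
      ((thickι f n).app ⊤ ≫ g)
        (f.appTop ((Scheme.ΓSpecIso (CommRingCat.of A)).inv a)) = 0 := by
    intro g
    rw [ConcreteCategory.comp_apply]
    exact (congrArg g h4).trans (map_zero _)
  exact h9 _

/-- A symbol with an entry which is one on the thickening gives a section of the kernel. -/
theorem exists_kernel_section [IsNoetherian X] (q e n : ℕ) (V : X.Opens)
    (a : Fin (e + 1) → (Γ(X, V))ˣ) (j : Fin (e + 1))
    (h : (thickι f n).app V (a j) = 1) :
    ∃ t : (NSh f q e n).obj.obj (op V),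
      (kernel.ι (redSh (thickι f n) q (e + 1))).hom.app (op V) t =
        (toSheafify (Opens.grothendieckTopology X.toTopCat) (KPre X (e + 1))).app (op V)
          (sym a) := by
  have h0 : (redSh (thickι f n) q (e + 1)).hom.app (op V)
      ((toSheafify (Opens.grothendieckTopology X.toTopCat) (KPre X (e + 1))).app (op V)
        (sym a)) = 0 := by
    rw [redSh_toSheafify, redPre_apply]
    have h1 : Pool.Agent.H62.MK.map ((thickι f n).c.app (op V)).hom (e + 1) (sym a) = 0 := by
      rw [Pool.Agent.H62.MK.map_sym]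
      refine sym_eq_zero_of_one (j := j) (Units.ext ?_)
      exact h
    rw [h1, map_zero]
    exact map_zero _
  have hS : (ShortComplex.mk (kernel.ι (redSh (thickι f n) q (e + 1)))
      (redSh (thickι f n) q (e + 1)) (kernel.condition _)).Exact := ShortComplex.exact_kernel _
  exact TopCat.Sheaf.sections_exact_of_left_exact (X := X.toTopCat) hS
    (equalizer.ι_mono (f := redSh (thickι f n) q (e + 1)) (g := 0)) _ h0

theorem topSh_toSheafify [IsNoetherian X] (d : ℕ) (V : X.Opens) (s : MilnorK Γ(X, V) d) :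
    (show (E (X := X.toTopCat) (fun v : Pts X d d => (v.1 : X))
      (fun v => MilnorK (kap X v.1) d)).sec V from (topSh X d).hom.app (op V)
      ((toSheafify (Opens.grothendieckTopology X.toTopCat) (KPre X d)).app (op V) s)).1
      = Pool.Agent.H17.KW.topFam X d V s := by
  have h := toSheafify_sheafifyLift (Opens.grothendieckTopology X.toTopCat)
    (Pool.Agent.H17.KW.topPre X d) (D X d d).2
  have h2 := congrArg (fun φ => φ.app (op V) s) h
  exact congrArg Subtype.val h2

end

theorem pf_NSM : T_NSM.{u} := by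
  intro A _ _ _ X _ f π hπ e q n y c u b hu
  obtain ⟨V1, hV1, a, ha⟩ := exists_units_germ (O := X.presheaf) (x := y)
    (Fin.cons u b : Fin (e + 1) → (X.presheaf.stalk y)ˣ)
  obtain ⟨V2, hV2, c', hc'⟩ := X.presheaf.exists_germ_eq c
  -- restrict to a common neighbourhood
  have hV : y ∈ V1 ⊓ V2 := ⟨hV1, hV2⟩
  let a1 : Fin (e + 1) → (Γ(X, V1 ⊓ V2))ˣ := fun j => resU X.presheaf inf_le_left (a j)
  let c1 : Γ(X, V1 ⊓ V2) := X.presheaf.map (homOfLE inf_le_right).op c'
  have hc1 : X.presheaf.germ _ y hV c1 = c := by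
    rw [← hc']
    exact TopCat.Presheaf.germ_res_apply X.presheaf (homOfLE inf_le_right) y hV c'
  have ha1 : ∀ j, gerU X.presheaf y _ hV (a1 j) = (Fin.cons u b : Fin (e + 1) → _) j := fun j =>
    (gerU_resU hV1 hV inf_le_left (a j)).trans (ha j)
  have hgerm : X.presheaf.germ _ y hV (a1 0 : Γ(X, V1 ⊓ V2))
      = X.presheaf.germ _ y hV (1 + glob f (V1 ⊓ V2) π ^ n * c1) := by
    have h1 := congrArg Units.val (ha1 0)
    rw [map_add, map_one, map_mul, map_pow, germ_glob, hc1, ← hu]
    exact h1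
  obtain ⟨W, hyW, hW, hres⟩ := exists_res_eq hV hgerm
  let a2 : Fin (e + 1) → (Γ(X, W))ˣ := fun j => resU X.presheaf hW (a1 j)
  have ha2 : ∀ j, gerU X.presheaf y _ hyW (a2 j) = (Fin.cons u b : Fin (e + 1) → _) j := fun j =>
    (gerU_resU hV hyW hW (a1 j)).trans (ha1 j)
  have h20 : (a2 0 : Γ(X, W)) = 1 + glob f W π ^ n * X.presheaf.map (homOfLE hW).op c1 := by
    refine hres.trans ?_
    rw [map_add, map_one, map_mul, map_pow, res_glob f hW π]
  have hone : (thickι f n).app W (a2 0) = 1 := by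
    rw [h20, map_add, map_one, map_mul, ← map_pow (glob f W), app_glob f n W (π ^ n), zero_mul,
      add_zero]
    refine Ideal.pow_mem_pow ?_ n
    exact (IsLocalRing.mem_maximalIdeal _).2 hπ.not_isUnit
  obtain ⟨t, ht⟩ := exists_kernel_section f q e n W a2 0 hone
  refine ⟨gen (X := X.toTopCat) (pH f π (e + 1) (e + 1)) (AH f π (e + 1) (e + 1)) y
    (famOf (X := X.toTopCat) (pH f π (e + 1) (e + 1)) (AH f π (e + 1) (e + 1))
      (nuSh f π q e n) t), ⟨W, hyW, t, rfl⟩, fun v h => ?_⟩
  rw [gen_apply_pos (X := X.toTopCat) (pH f π (e + 1) (e + 1)) _ h]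
  have hvW : v.1.1 ∈ W := h.mem_open W.2 hyW
  have e1 : famOf (X := X.toTopCat) (pH f π (e + 1) (e + 1)) (AH f π (e + 1) (e + 1))
      (nuSh f π q e n) t = keep (X := X.toTopCat) (pH f π (e + 1) (e + 1))
        (AH f π (e + 1) (e + 1)) W (reH f π (e + 1) (e + 1)
          (Pool.Agent.H17.KW.topFam X (e + 1) W (sym a2))) := by
    have e2 := congrArg (fun c => (mapE (reH f π (e + 1) (e + 1))
      (isLocalHom_reH f π (e + 1) (e + 1))).hom.app (op W) ((topSh X (e + 1)).hom.app (op W) c)) ht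
    have e3 := congrArg (keep (X := X.toTopCat) (pH f π (e + 1) (e + 1))
        (AH f π (e + 1) (e + 1)) W ∘ reH f π (e + 1) (e + 1)) (topSh_toSheafify (e + 1) W (sym a2))
    exact (congrArg Subtype.val e2).trans e3
  rw [e1, keep_apply_pos (X := X.toTopCat) (pH f π (e + 1) (e + 1)) _ hvW, reH_apply,
    Pool.Agent.H17.KW.topFam_apply, Pool.Agent.H17.KW.topVal_of_mem X (e + 1) W v.1.1 hvW,
    Pool.Agent.H62.MK.map_sym, Pool.Agent.H62.MK.map_sym]
  congr 1
  funext j
  rw [← ha2 j]
  apply Units.ext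
  have h5 := ConcreteCategory.congr_hom
    (TopCat.Presheaf.germ_stalkSpecializes X.presheaf hyW h) (a2 j : Γ(X, W))
  exact (congrArg (X.residue v.1.1) h5).symm

end Pool.Agent.H14.KSJ
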